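import Pool.Agent.SelfCover.Final
import Pool.Agent.SelfCover.Relation

/-!
# MP_121bc0_gt, Q2: the limit cover of a self-covering finite complex need not be finitely dominated

There are a finite CW complex `X` (in particular finitely dominated), a double covering
`q : X' → X` and a base-point-preserving homotopy equivalence `h : X → X'` such that
`G = ⋂ im (h_#^k)` is a finitely presented normal subgroup of `π₁(X)`, but the covering space of `X`
with fundamental group `G` is not finitely dominated.
-/

namespace Pool.Agent.Results.MP_121bc0_gt.FiniteDominationQ2

open SelfCover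

universe u

theorem result : ∃ (S : SelfCovering 2) (L : S.LimitCover),
    IsFiniteCW S.X ∧ S.G.Normal ∧ Group.IsFinitelyPresented S.G ∧
      ¬ IsFinitelyDominated.{u} L.Y := by
  obtain ⟨S, L, h1, h2, h3, -, h5⟩ := final_of.{u} exists_relation
  exact ⟨S, L, h1, h2, h3, h5⟩

end Pool.Agent.Results.MP_121bc0_gt.FiniteDominationQ2
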