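import Pool.Agent.SelfCover.Final
import Pool.Agent.SelfCover.Relation

/-!
# MP_121bc0_gt, Q1: the limit cover of a self-covering finite complex need not be of finite type

There are a finite CW complex `X`, a double covering `q : X' → X` and a base-point-preserving
homotopy equivalence `h : X → X'` such that `G = ⋂ im (h_#^k)` is a finitely presented normal
subgroup of `π₁(X)`, but the covering space of `X` with fundamental group `G` is not homotopy
equivalent to a CW complex with finitely many cells in each dimension.

The example: `P` is the mapping torus of the doubling map of the circle (a classifying space of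
`BS(1,2) = ⟨x, s | s x s⁻¹ = x²⟩` up to conventions), `M = S² ∧ (S¹ ∪₂ e²)`, `Z = P ∨ M`,
`a : Z → Z` is the identity on `P` and `(1+x)² ι` on `M`, and `X` is the mapping torus of `a`.
-/

namespace Pool.Agent.Results.MP_121bc0_gt.FiniteTypeQ1

open SelfCover

universe u

theorem result : ∃ (S : SelfCovering 2) (L : S.LimitCover),
    IsFiniteCW S.X ∧ S.G.Normal ∧ Group.IsFinitelyPresented S.G ∧ ¬ IsOfFiniteType.{u} L.Y := by
  obtain ⟨S, L, h1, h2, h3, h4, -⟩ := final_of.{u} exists_relation
  exact ⟨S, L, h1, h2, h3, h4⟩

end Pool.Agent.Results.MP_121bc0_gt.FiniteTypeQ1
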